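import Pool.Agent.P.MP_032f6a_lc.LogicMain

namespace Pool.Agent.Results.MP_032f6a_lc.AllHomogeneous

open Pool.Agent.P.MP_032f6a_lc

/-- Every characterizable cardinal other than `ℵ₀` is homogeneously characterizable. -/
theorem result (κ : Cardinal.{0}) (h : Ch κ) (hne : κ ≠ Cardinal.aleph0) : HomCh κ :=
  homCh_of_ch h hne

end Pool.Agent.Results.MP_032f6a_lc.AllHomogeneous
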