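import Pool.Agent.P.MP_032f6a_lc.TowerLogic

set_option autoImplicit false

namespace Pool.Agent.Results.MP_032f6a_lc.UniformSuccessors

open Cardinal Pool.Agent.P.MP_032f6a_lc

/-- For every countable ordinal `α > 0` one complete sentence with a completely homogeneous
predicate `N` works for all infinite cardinals at once: the largest size of a model in which `N`
has size at most `ℵ_ξ` is exactly `ℵ_(ξ+α)`. -/
theorem result (α : Ordinal.{0}) (h0 : 0 < α) (hα : α.card ≤ ℵ₀) :
    ∃ (L : FirstOrder.Language.{0, 0}) (_ : Countable L.Symbols) (ψ : Fml L 0) (N : L.Relations 1),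
      IsComplete ψ ∧ (∀ A : Model ψ, Countable A.M → A.Homogeneous N) ∧
      ∀ ξ : Ordinal.{0},
        (∀ A : Model ψ, #(A.ext N) ≤ aleph ξ → #A.M ≤ aleph (ξ + α)) ∧
        ∃ A : Model ψ, #(A.ext N) = aleph ξ ∧ #A.M = aleph (ξ + α) :=
  Uf.uniform α h0 hα

end Pool.Agent.Results.MP_032f6a_lc.UniformSuccessors
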